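import Mathlib
import Pool.Agent.H516_DW.Meas

/-! A contracting forward composition of inner functions with divergent series whose Denjoy-Wolff set
has full measure. -/

namespace Pool.Agent.Results.MP_9b5b1e_an.FullMeasure

open Complex Filter Topology MeasureTheory Set Metric

/-- Inner functions: holomorphic self-maps of the unit disc whose radial limits exist and have
modulus one at almost every point of the unit circle. -/
structure IsInner (f : ℂ → ℂ) : Prop where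
  holo : DifferentiableOn ℂ f (ball 0 1)
  maps : MapsTo f (ball 0 1) (ball 0 1)
  radial : ∀ᵐ θ : ℝ ∂(volume.restrict (Ioc 0 (2 * Real.pi))), ∃ w : ℂ, ‖w‖ = 1 ∧
    Tendsto (fun r : ℝ => f (r * cexp (θ * I))) (𝓝[<] 1) (𝓝 w)

/-- The forward compositions: `forward f n = f_n ∘ ... ∘ f_1`, where `f_k` is `f (k - 1)`. -/
def forward (f : ℕ → ℂ → ℂ) : ℕ → ℂ → ℂ
  | 0 => id
  | n + 1 => f n ∘ forward f n

/-- the hyperbolic distance of the unit disc -/
noncomputable def hypDist (z w : ℂ) : ℝ :=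
  Real.log ((1 + ‖z - w‖ / ‖1 - (starRingEnd ℂ) w * z‖) / (1 - ‖z - w‖ / ‖1 - (starRingEnd ℂ) w * z‖))

/-- contracting sequences -/
def Contracting (F : ℕ → ℂ → ℂ) : Prop :=
  ∀ z ∈ ball (0 : ℂ) 1, ∀ w ∈ ball (0 : ℂ) 1, Tendsto (fun n => hypDist (F n z) (F n w)) atTop (𝓝 0)

/-- The Denjoy-Wolff set: the points `ζ` of the circle at which all `F_n` have radial limits
`b_n = F_n(ζ)` and `|b_n - F_n(0)| → 0`. -/
def denjoyWolffSet (F : ℕ → ℂ → ℂ) : Set ℂ :=
  {ζ | ‖ζ‖ = 1 ∧ ∃ b : ℕ → ℂ, (∀ n, Tendsto (fun r : ℝ => F n (r * ζ)) (𝓝[<] 1) (𝓝 (b n))) ∧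
    Tendsto (fun n => ‖b n - F n 0‖) atTop (𝓝 0)}

open Pool.Agent.H516_DW in
theorem forward_eq (f : ℕ → ℂ → ℂ) (n : ℕ) : forward f n = comp f n := by
  induction n with
  | zero => rfl
  | succ n ih =>
    change f n ∘ forward f n = f n ∘ comp f n
    rw [ih]

theorem radial_tendsto {f : ℂ → ℂ} {ζ : ℂ} (h : ContinuousAt f ζ) :
    Tendsto (fun r : ℝ => f (r * ζ)) (𝓝[<] 1) (𝓝 (f ζ)) := by
  have h1 : Tendsto (fun r : ℝ => (r : ℂ) * ζ) (𝓝[<] 1) (𝓝 ζ) := by
    have h2 : Continuous fun r : ℝ => (r : ℂ) * ζ := by fun_prop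
    have h3 := (h2.tendsto 1).mono_left (nhdsWithin_le_nhds (s := Iio 1))
    simpa using h3
  exact h.tendsto.comp h1

open Pool.Agent.H516_DW in
theorem isInner_ff (n : ℕ) : IsInner (ff n) := by
  refine ⟨fun z hz => ?_, fun z hz => ?_, ae_of_all _ fun θ => ?_⟩
  · exact (ff_diff n (mem_ball_zero_iff.1 hz).le).differentiableWithinAt
  · exact mem_ball_zero_iff.2 (ff_norm_lt n (mem_ball_zero_iff.1 hz))
  · have h1 : ‖cexp (θ * I)‖ = 1 := norm_exp_ofReal_mul_I θ
    exact ⟨_, ff_norm_eq n h1, radial_tendsto (ff_diff n h1.le).continuousAt⟩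

open Pool.Agent.H516_DW in
theorem hypDist_mob {a : ℝ} (ha : |a| < 1) {z w : ℂ} (hz : ‖z‖ ≤ 1) (hw : ‖w‖ ≤ 1) :
    hypDist (mob a z) (mob a w) = hypDist z w := by
  have h1 := den_ne ha hz
  have h2 := den_ne ha hw
  have h3 : (1 : ℂ) + a * (starRingEnd ℂ) w ≠ 0 := den_ne ha (by rwa [RCLike.norm_conj])
  have h5 : (1 : ℂ) - a * a ≠ 0 := by
    intro h
    have h3 : (1 : ℝ) - a * a = 0 := by exact_mod_cast h
    have := (sq_lt_one_iff_abs_lt_one a).2 ha
    nlinarith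
  have h4 : ‖(1 : ℂ) + a * (starRingEnd ℂ) w‖ = ‖(1 : ℂ) + a * w‖ := by
    have : (1 : ℂ) + a * (starRingEnd ℂ) w = (starRingEnd ℂ) (1 + a * w) := by simp
    rw [this, RCLike.norm_conj]
  have key : ‖mob a z - mob a w‖ / ‖1 - (starRingEnd ℂ) (mob a w) * mob a z‖ =
      ‖z - w‖ / ‖1 - (starRingEnd ℂ) w * z‖ := by
    have e1 : mob a z - mob a w = (z - w) * (1 - a * a) / ((1 + a * z) * (1 + a * w)) := by
      rw [mob, mob, div_sub_div _ _ h1 h2]
      congr 1
      ring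
    have e2 : (starRingEnd ℂ) (mob a w) = ((starRingEnd ℂ) w + a) / (1 + a * (starRingEnd ℂ) w) := by
      simp [mob]
    have e3 : 1 - (starRingEnd ℂ) (mob a w) * mob a z = (1 - (starRingEnd ℂ) w * z) * (1 - a * a) /
        ((1 + a * z) * (1 + a * (starRingEnd ℂ) w)) := by
      rw [e2, mob, div_mul_div_comm, eq_div_iff (mul_ne_zero h1 h3), mul_comm (1 + (a : ℂ) * z),
        sub_mul, div_mul_cancel₀ _ (mul_ne_zero h3 h1)]
      ring
    rw [e1, e3]
    simp only [norm_div, norm_mul]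
    rw [h4]
    have g1 : ‖(1 : ℂ) + a * z‖ ≠ 0 := norm_ne_zero_iff.2 h1
    have g2 : ‖(1 : ℂ) + a * w‖ ≠ 0 := norm_ne_zero_iff.2 h2
    have g5 : ‖(1 : ℂ) - a * a‖ ≠ 0 := norm_ne_zero_iff.2 h5
    rw [div_div_div_cancel_right₀ (mul_ne_zero g1 g2), mul_div_mul_right _ _ g5]
  rw [hypDist, hypDist, key]

open Pool.Agent.H516_DW in
theorem contracting_comp : Contracting (forward ff) := by
  intro z hz w hw
  rw [mem_ball_zero_iff] at hz hw
  have h1 : ∀ n, hypDist (forward ff n z) (forward ff n w) = hypDist (HH n z) (HH n w) := by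
    intro n
    rw [forward_eq, comp_eq n hz.le, comp_eq n hw.le]
    exact hypDist_mob (aa_abs n) ((HH_norm_le n hz.le).trans hz.le)
      ((HH_norm_le n hw.le).trans hw.le)
  simp_rw [h1]
  have h2 := HH_tendsto hz
  have h3 := HH_tendsto hw
  have h4 : Tendsto (fun n => ‖HH n z - HH n w‖) atTop (𝓝 0) := by
    have := (h2.sub h3).norm
    simpa using this
  have h5 : Tendsto (fun n => ‖1 - (starRingEnd ℂ) (HH n w) * HH n z‖) atTop (𝓝 1) := by
    have h6 : Tendsto (fun n => (starRingEnd ℂ) (HH n w)) atTop (𝓝 ((starRingEnd ℂ) 0)) :=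
      (Complex.continuous_conj.tendsto 0).comp h3
    have := ((h6.mul h2).const_sub 1).norm
    simpa using this
  have h7 : Tendsto (fun n => ‖HH n z - HH n w‖ / ‖1 - (starRingEnd ℂ) (HH n w) * HH n z‖) atTop
      (𝓝 0) := by
    have h8 := h4.div h5 one_ne_zero
    rw [zero_div] at h8
    exact h8
  have h8 : Tendsto (fun n => (1 + ‖HH n z - HH n w‖ / ‖1 - (starRingEnd ℂ) (HH n w) * HH n z‖) /
      (1 - ‖HH n z - HH n w‖ / ‖1 - (starRingEnd ℂ) (HH n w) * HH n z‖)) atTop (𝓝 1) := by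
    have h8 := (h7.const_add 1).div (h7.const_sub 1) (by norm_num)
    rw [add_zero, sub_zero, div_one] at h8
    exact h8
  have h9 := (Real.continuousAt_log one_ne_zero).tendsto.comp h8
  rw [Real.log_one] at h9
  exact h9

/-- Negative answer to Q1: there is a contracting forward composition of inner functions (none of
them injective, so none of them a Möbius map) whose interior orbits converge to the boundary and with
`∑ (1 - |F_n(0)|) = ∞`, whose Denjoy-Wolff set has full measure. -/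
theorem result : ∃ f : ℕ → ℂ → ℂ,
    (∀ n, IsInner (f n)) ∧
    (∀ n, ¬ InjOn (f n) (ball 0 1)) ∧
    Contracting (forward f) ∧
    (∀ z ∈ ball (0 : ℂ) 1, Tendsto (fun n => ‖forward f n z‖) atTop (𝓝 1)) ∧
    ¬ Summable (fun n => 1 - ‖forward f n 0‖) ∧
    volume {θ : ℝ | θ ∈ Ioc 0 (2 * Real.pi) ∧ cexp (θ * I) ∈ denjoyWolffSet (forward f)} =
      ENNReal.ofReal (2 * Real.pi) ∧
    volume {θ : ℝ | θ ∈ Ioc 0 (2 * Real.pi) ∧ cexp (θ * I) ∉ denjoyWolffSet (forward f)} = 0 := by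
  have hF : forward Pool.Agent.H516_DW.ff = Pool.Agent.H516_DW.comp Pool.Agent.H516_DW.ff :=
    funext fun n => forward_eq _ n
  have hae : ∀ᵐ θ : ℝ ∂(volume.restrict (Ioc 0 (2 * Real.pi))),
      cexp (θ * I) ∈ denjoyWolffSet (forward Pool.Agent.H516_DW.ff) := by
    filter_upwards [Pool.Agent.H516_DW.ae_boundary] with θ hθ
    have h1 : ‖cexp (θ * I)‖ = 1 := norm_exp_ofReal_mul_I θ
    have h2 : circleMap 0 1 θ = cexp (θ * I) := by simp [circleMap]
    rw [h2] at hθ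
    rw [hF]
    exact ⟨h1, fun n => Pool.Agent.H516_DW.comp Pool.Agent.H516_DW.ff n (cexp (θ * I)),
      fun n => radial_tendsto (Pool.Agent.H516_DW.comp_diff n h1.le).continuousAt, hθ⟩
  rw [ae_restrict_iff' measurableSet_Ioc] at hae
  refine ⟨Pool.Agent.H516_DW.ff, isInner_ff, ?_, contracting_comp, ?_, ?_, ?_, ?_⟩
  · intro n hinj
    obtain ⟨z, w, hz, hw, hne, h⟩ := Pool.Agent.H516_DW.ff_not_inj n
    exact hne (hinj (mem_ball_zero_iff.2 hz) (mem_ball_zero_iff.2 hw) h)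
  · intro z hz
    rw [hF]
    have := (Pool.Agent.H516_DW.comp_tendsto (mem_ball_zero_iff.1 hz)).norm
    rwa [norm_one] at this
  · rw [hF]
    exact Pool.Agent.H516_DW.not_summable_comp
  · have h1 : volume (Ioc 0 (2 * Real.pi)) = ENNReal.ofReal (2 * Real.pi) := by
      rw [Real.volume_Ioc, sub_zero]
    rw [← h1]
    apply measure_congr
    filter_upwards [hae] with θ hθ
    apply propext
    exact ⟨fun h => h.1, fun h => ⟨h, hθ h⟩⟩
  · refine measure_mono_null ?_ (ae_iff.1 hae)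
    rintro θ ⟨h1, h2⟩
    exact fun h => h2 (h h1)

end Pool.Agent.Results.MP_9b5b1e_an.FullMeasure
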